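import Pool.Agent.Q240.LH.Rect

/-!
# Few zeros imply the expected upper bound
-/

set_option autoImplicit false

namespace Q240.LH

open Complex Filter Topology Metric Set Polynomial
open Q240.SH

theorem mult_mul_exp {F : ℂ → ℂ} {z : ℂ} (hF : AnalyticAt ℂ F z) (L : ℝ) :
    H370.mult (fun w => F w * cexp ((w - 1 / 2) * L)) z = H370.mult F z := by
  have hg : AnalyticAt ℂ (fun w : ℂ => cexp ((w - 1 / 2) * L)) z := by fun_prop
  have h1 := analyticOrderAt_mul hF hg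
  have h2 : analyticOrderAt (fun w : ℂ => cexp ((w - 1 / 2) * L)) z = 0 :=
    hg.analyticOrderAt_eq_zero.2 (Complex.exp_ne_zero _)
  rw [h2, add_zero] at h1
  unfold H370.mult analyticOrderNatAt
  have h3 : (fun w => F w * cexp ((w - 1 / 2) * L)) = F * fun w : ℂ => cexp ((w - 1 / 2) * L) := rfl
  rw [h3, h1]

theorem norm_twist (F : ℂ → ℂ) (L : ℝ) (z : ℂ) :
    ‖F z * cexp ((z - 1 / 2) * L)‖ = ‖F z‖ * Real.exp ((z.re - 1 / 2) * L) := by
  rw [norm_mul, Complex.norm_exp, re_mul_ofReal, sub_re]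
  norm_num

theorem few_bound {F : ℂ → ℂ} (hF : Cls F) (α ε η : ℝ) (hε : 0 < ε) (hεα : ε ≤ α) (hα : α ≤ 1 / 2)
    (hη : 0 < η) : ∃ η' T0 : ℝ, 0 < η' ∧ 100 ≤ T0 ∧ ∀ T : ℝ, T0 ≤ T →
    (∀ S : Finset ℂ, (∀ z ∈ S, F z = 0 ∧ 0 ≤ z.re ∧ z.re ≤ α - ε / 2 ∧ |z.im - T| ≤ 1) →
      ∑ z ∈ S, (H370.mult F z : ℝ) ≤ η' * Real.log T) →
    ∀ s : ℂ, s.im = T → 0 ≤ s.re → s.re ≤ α - ε →
      ‖F s‖ ≤ Real.exp (Real.log T * (1 / 2 - s.re + η)) := by
  obtain ⟨A, T1, hA, hT1, hg⟩ := hF.grow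
  obtain ⟨δ, hδ⟩ : ∃ δ : ℝ, δ = ε / 4 := ⟨_, rfl⟩
  have hδ0 : 0 < δ := by rw [hδ]; positivity
  have hδ1 : δ ≤ 1 / 8 := by rw [hδ]; linarith
  have hlogδ : 0 ≤ Real.log (1 / δ) := Real.log_nonneg (by rw [le_div_iff₀ hδ0]; linarith)
  have hlog16 : 0 < Real.log 16 := Real.log_pos (by norm_num)
  obtain ⟨D, hD⟩ : ∃ D : ℝ, D = 8 / δ ^ 2 * (2 * A + Real.log (1 / δ) + 2) := ⟨_, rfl⟩
  have hD0 : 0 < D := by rw [hD]; positivity
  obtain ⟨K, hK⟩ := exists_pow_lt_of_lt_one (show 0 < η / 4 / D by positivity)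
    (show 1 - δ / 2 < 1 by linarith)
  have hq0 : 0 ≤ 1 - δ / 2 := by linarith
  rw [lt_div_iff₀ hD0] at hK
  obtain ⟨G, hG⟩ : ∃ G : ℝ, G = K * (32 : ℝ) ^ K := ⟨_, rfl⟩
  have hG0 : 0 ≤ G := by rw [hG]; positivity
  obtain ⟨η1, hη1⟩ : ∃ η1 : ℝ, η1 = min 1 (η / 4 / (1 + 4 * G)) := ⟨_, rfl⟩
  have hη1p : 0 < η1 := by rw [hη1]; exact lt_min one_pos (by positivity)
  have hη11 : η1 ≤ 1 := by rw [hη1]; exact min_le_left _ _
  have hη12 : η1 * (1 + 4 * G) ≤ η / 4 := by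
    have h1 : η1 ≤ η / 4 / (1 + 4 * G) := by rw [hη1]; exact min_le_right _ _
    rwa [le_div_iff₀ (by positivity)] at h1
  obtain ⟨η', hη'⟩ : ∃ η' : ℝ, η' = min 1 (η / 4 / (Real.log 16 * (1 + 2 * G))) := ⟨_, rfl⟩
  have hη'p : 0 < η' := by rw [hη']; exact lt_min one_pos (by positivity)
  have hη'1 : η' ≤ 1 := by rw [hη']; exact min_le_left _ _
  have hη'2 : η' * (Real.log 16 * (1 + 2 * G)) ≤ η / 4 := by
    have h1 : η' ≤ η / 4 / (Real.log 16 * (1 + 2 * G)) := by rw [hη']; exact min_le_right _ _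
    rwa [le_div_iff₀ (by positivity)] at h1
  obtain ⟨T2, hT2, hbig⟩ := hF.big η1 hη1p
  obtain ⟨T3, hT3⟩ := ev_log ((2 + 6 * G) * 4 / η)
  refine ⟨η', max (max (T1 + 1) (T2 + 1)) (max T3 100), hη'p,
    (le_max_right _ _).trans (le_max_right _ _), fun T hT hS s hs1 hs2 hs3 => ?_⟩
  have b1 : T1 + 1 ≤ T := ((le_max_left _ _).trans (le_max_left _ _)).trans hT
  have b2 : T2 + 1 ≤ T := ((le_max_right _ _).trans (le_max_left _ _)).trans hT
  have b3 : T3 ≤ T := ((le_max_left _ _).trans (le_max_right _ _)).trans hT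
  have b4 : 100 ≤ T := ((le_max_right _ _).trans (le_max_right _ _)).trans hT
  have hT0 : 0 < T := by linarith
  obtain ⟨L, hL⟩ : ∃ L : ℝ, L = Real.log T := ⟨_, rfl⟩
  have hL1 : 1 ≤ L := by
    rw [hL, Real.le_log_iff_exp_le hT0]
    linarith [Real.exp_one_lt_d9]
  have hLG : 2 + 6 * G ≤ η / 4 * L := by
    have h1 := hT3 T b3
    rw [← hL, div_le_iff₀ hη] at h1
    linarith
  rw [← hL] at hS ⊢
  obtain ⟨c, hc⟩ : ∃ c : ℂ, c = ⟨-1 / 4, T⟩ := ⟨_, rfl⟩
  have hcre : c.re = -1 / 4 := by rw [hc]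
  have hcim : c.im = T := by rw [hc]
  obtain ⟨ϱ, hϱ⟩ : ∃ ϱ : ℝ, ϱ = α + 1 / 4 - 5 * ε / 4 := ⟨_, rfl⟩
  have hball : ∀ (r : ℝ) (z : ℂ), z ∈ closedBall c r → -1 / 4 - r ≤ z.re ∧ z.re ≤ -1 / 4 + r ∧
      |z.im - T| ≤ r := by
    intro r z hz
    rw [mem_closedBall, dist_eq_norm] at hz
    have h1 := abs_le.1 ((abs_re_le_norm (z - c)).trans hz)
    have h2 := (abs_im_le_norm (z - c)).trans hz
    rw [sub_re, hcre] at h1
    rw [sub_im, hcim] at h2
    exact ⟨by linarith, by linarith, h2⟩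
  have hlog : ∀ z : ℂ, |z.im - T| ≤ 1 → |Real.log z.im - L| ≤ 1 := by
    intro z hz
    rw [hL]
    exact log_near' (X := 1) zero_le_one (by linarith) hz
  obtain ⟨f, hf⟩ : ∃ f : ℂ → ℂ, f = fun w => F w * cexp ((w - 1 / 2) * L) := ⟨_, rfl⟩
  have hfn : ∀ z : ℂ, ‖f z‖ = ‖F z‖ * Real.exp ((z.re - 1 / 2) * L) := by
    intro z
    rw [hf]
    exact norm_twist F L z
  have hf0 : ∀ z : ℂ, f z = 0 ↔ F z = 0 := by
    intro z
    rw [hf]
    simp only [mul_eq_zero, Complex.exp_ne_zero, or_false]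
  have him : ∀ z : ℂ, z ∈ closedBall c (ϱ + 3 * δ) → 0 < z.im ∧ T1 ≤ z.im ∧ T2 ≤ z.im ∧
      |z.im - T| ≤ 1 ∧ -1 ≤ z.re ∧ z.re ≤ α - ε / 2 := by
    intro z hz
    obtain ⟨h1, h2, h3⟩ := hball _ z hz
    have h4 : ϱ + 3 * δ ≤ 3 / 4 := by rw [hϱ, hδ]; linarith
    have h5 := abs_le.1 (h3.trans h4)
    refine ⟨by linarith, by linarith, by linarith, by linarith, by linarith, ?_⟩
    rw [hϱ, hδ] at h2
    linarith
  have hzero : ∀ z : ℂ, z ∈ closedBall c (ϱ + 3 * δ) → F z = 0 → 0 < z.re := by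
    intro z hz h0
    obtain ⟨h1, h2, h3, h4, h5, h6⟩ := him z hz
    by_contra hcon
    push Not at hcon
    have h7 := (hbig z h3 (by linarith) hcon).1
    rw [h0, norm_zero] at h7
    exact absurd h7 (not_le.2 (Real.exp_pos _))
  have key := DH31.backlund_abs (f := f) (c := c) (ϱ := ϱ) (δ := δ) (l := 1 / 8)
    (n := η' * L) (M := Real.exp (2 * A * L)) (A := Real.exp (η1 * L + 2)) (a := Real.exp (η1 * L))
    (by norm_num) (by norm_num) (by rw [hϱ]; linarith)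
    (by rw [hϱ, hδ]; linarith) hδ0
    (Real.one_le_exp (by positivity)) (Real.one_le_exp (by positivity)) (Real.one_le_exp (by positivity))
    (by positivity)
    (fun w hw => by
      rw [hf]
      exact (hF.an w (him w hw).1).mul (by fun_prop))
    (fun w hw => by
      obtain ⟨h1, h2, h3, h4, h5, h6⟩ := him w hw
      rw [hfn]
      have h7 := hg w h2 (by linarith) (by linarith)
      have h8 := abs_le.1 (hlog w h4)
      have h9 : A * Real.log w.im ≤ 2 * A * L := by nlinarith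
      have h10 : (w.re - 1 / 2) * L ≤ 0 := mul_nonpos_of_nonpos_of_nonneg (by linarith) (by linarith)
      calc _ ≤ Real.exp (2 * A * L) * 1 :=
            mul_le_mul (h7.trans (Real.exp_le_exp.2 h9)) (Real.exp_le_one_iff.2 h10)
              (Real.exp_pos _).le (Real.exp_pos _).le
        _ = _ := mul_one _)
    (fun w hw => by
      obtain ⟨h1, h2, h3⟩ := hball _ w hw
      rw [hfn]
      have h5 := abs_le.1 h3
      have h7 := (hbig w (by linarith) (by linarith) (by linarith)).2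
      have h8 := abs_le.1 (hlog w (by linarith))
      have h9 : Real.log w.im * (1 / 2 - w.re + η1) ≤ (L + 1) * (1 / 2 - w.re + η1) :=
        mul_le_mul_of_nonneg_right (by linarith) (by linarith)
      calc _ ≤ Real.exp ((L + 1) * (1 / 2 - w.re + η1)) * Real.exp ((w.re - 1 / 2) * L) :=
            mul_le_mul_of_nonneg_right (h7.trans (Real.exp_le_exp.2 h9)) (Real.exp_pos _).le
        _ ≤ _ := by
            rw [← Real.exp_add]
            apply Real.exp_le_exp.2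
            nlinarith)
    (by
      rw [hfn, hcre]
      have h7 := (hbig c (by rw [hcim]; linarith) (by rw [hcre]; norm_num) (by rw [hcre]; norm_num)).1
      rw [hcim, hcre, ← hL] at h7
      rw [one_div, ← Real.exp_neg]
      calc Real.exp (-(η1 * L)) = Real.exp (L * (1 / 2 - -1 / 4 - η1)) * Real.exp ((-1 / 4 - 1 / 2) * L) := by
            rw [← Real.exp_add]; congr 1; ring
        _ ≤ _ := mul_le_mul_of_nonneg_right h7 (Real.exp_pos _).le)
    (by
      intro w hw hw0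
      have hw' : w ∈ closedBall c (ϱ + 3 * δ) := closedBall_subset_closedBall (by linarith) hw
      have h1 := hzero w hw' ((hf0 w).1 hw0)
      have h2 := abs_re_le_norm (w - c)
      rw [sub_re, hcre, abs_of_pos (by linarith)] at h2
      linarith)
    (fun S hSS => by
      have h1 : ∀ z ∈ S, F z = 0 ∧ 0 ≤ z.re ∧ z.re ≤ α - ε / 2 ∧ |z.im - T| ≤ 1 := by
        intro z hz
        obtain ⟨h2, h3⟩ := hSS z hz
        have h2' : z ∈ closedBall c (ϱ + 3 * δ) := closedBall_subset_closedBall (by linarith) h2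
        have h4 := him z h2'
        exact ⟨(hf0 z).1 h3, (hzero z h2' ((hf0 z).1 h3)).le, h4.2.2.2.2.2, h4.2.2.2.1⟩
      have h2 : ∑ z ∈ S, (H370.mult f z : ℝ) = ∑ z ∈ S, (H370.mult F z : ℝ) := by
        refine Finset.sum_congr rfl fun z hz => ?_
        have h2' : z ∈ closedBall c (ϱ + 3 * δ) :=
          closedBall_subset_closedBall (by linarith) (hSS z hz).1
        rw [hf, mult_mul_exp (hF.an z (him z h2').1)]
      rw [h2]
      exact hS S h1) K (z := s)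
    (by
      have h1 : s = ⟨s.re, T⟩ := by
        apply Complex.ext
        · rfl
        · exact hs1
      rw [mem_closedBall, dist_eq_norm]
      have h2 : s - c = ((s.re + 1 / 4 : ℝ) : ℂ) := by
        apply Complex.ext
        · rw [sub_re, hcre, ofReal_re]; ring
        · rw [sub_im, hcim, hs1, ofReal_im, sub_self]
      rw [h2, norm_real, Real.norm_eq_abs, abs_of_pos (by linarith), hϱ, hδ]
      linarith)
  rw [hfn] at key
  have e16 : (2 : ℝ) / (1 / 8) = 16 := by norm_num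
  have e32 : (4 : ℝ) / (1 / 8) = 32 := by norm_num
  rw [e16, e32, Real.log_exp, Real.log_exp, Real.log_exp, ← hG, ← Real.exp_add] at key
  have hexp : η1 * L + 2 + (η' * L * Real.log 16 +
      2 * (η1 * L + 2 + η' * L * Real.log 16 + η1 * L + 1) * G +
      4 * (2 * A * L + η' * L * Real.log (1 / δ) + η1 * L + 1) / δ * (1 - δ / 2) ^ K * (2 / δ)) ≤ η * L := by
    have e1 : η' * (Real.log 16 * (1 + 2 * G)) * L ≤ η / 4 * L :=
      mul_le_mul_of_nonneg_right hη'2 (by linarith)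
    have e2 : η1 * (1 + 4 * G) * L ≤ η / 4 * L := mul_le_mul_of_nonneg_right hη12 (by linarith)
    have e3 : 4 * (2 * A * L + η' * L * Real.log (1 / δ) + η1 * L + 1) / δ * (1 - δ / 2) ^ K * (2 / δ) ≤
        η / 4 * L := by
      have h1 : 2 * A * L + η' * L * Real.log (1 / δ) + η1 * L + 1 ≤ L * (2 * A + Real.log (1 / δ) + 2) := by
        have a1 : η' * L * Real.log (1 / δ) ≤ 1 * L * Real.log (1 / δ) := by gcongr
        have a2 : η1 * L ≤ 1 * L := by gcongr
        nlinarith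
      have hp : 0 ≤ (1 - δ / 2) ^ K := by positivity
      calc _ = 8 / δ ^ 2 * (2 * A * L + η' * L * Real.log (1 / δ) + η1 * L + 1) * (1 - δ / 2) ^ K := by
            field_simp
            ring
        _ ≤ 8 / δ ^ 2 * (L * (2 * A + Real.log (1 / δ) + 2)) * (1 - δ / 2) ^ K := by gcongr
        _ = ((1 - δ / 2) ^ K * D) * L := by rw [hD]; ring
        _ ≤ _ := mul_le_mul_of_nonneg_right hK.le (by linarith)
    nlinarith
  have h1 : ‖F s‖ * Real.exp ((s.re - 1 / 2) * L) ≤ Real.exp (η * L) :=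
    key.trans (Real.exp_le_exp.2 hexp)
  calc ‖F s‖ = ‖F s‖ * Real.exp ((s.re - 1 / 2) * L) * Real.exp (-((s.re - 1 / 2) * L)) := by
        rw [mul_assoc, ← Real.exp_add, add_neg_cancel, Real.exp_zero, mul_one]
    _ ≤ Real.exp (η * L) * Real.exp (-((s.re - 1 / 2) * L)) :=
        mul_le_mul_of_nonneg_right h1 (Real.exp_pos _).le
    _ = _ := by rw [← Real.exp_add]; congr 1; ring

end Q240.LH
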