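import Pool.Agent.Q240.LH.Count

/-!
# Small values of zeta imply few zeros to the left: unit windows
-/

set_option autoImplicit false

namespace Q240.LH

open Complex Filter Topology Metric Set Polynomial
open Q240.SH

theorem zeta_few (P : ℂ[X]) (hP : P ≠ 0) (S : Finset ℝ) (c : ℝ → ℂ) (α ε : ℝ) (hα0 : 0 < α)
    (hα : α ≤ 1 / 2) (hε : 0 < ε) : ∃ η C T0 : ℝ, 0 < η ∧ 0 < C ∧ ∀ T : ℝ, T0 ≤ T →
    (∀ t : ℝ, |t - T| ≤ C → ‖riemannZeta (⟨1 - α, t⟩ : ℂ)‖ ≤ Real.exp (η * Real.log T)) →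
    ∀ Z : Finset ℂ, (∀ z ∈ Z, 0 ≤ z.re ∧ z.re ≤ α - ε ∧ |z.im - T| ≤ 1) →
      ∑ z ∈ Z, (H370.mult (LD P S c) z : ℝ) ≤ ε * Real.log T := by
  have hF := cls_LD P hP S c
  obtain ⟨ε0, hε0⟩ : ∃ ε0 : ℝ, ε0 = min ε α := ⟨_, rfl⟩
  have h00 : 0 < ε0 := by rw [hε0]; exact lt_min hε hα0
  have h01 : ε0 ≤ ε := by rw [hε0]; exact min_le_left _ _
  have h02 : ε0 ≤ α := by rw [hε0]; exact min_le_right _ _
  obtain ⟨κ, hκ, hpiece⟩ := piece hF α ε0 h00 h02 hα
  obtain ⟨N, hN⟩ : ∃ N : ℕ, N = ⌈4 / ε0⌉₊ + 1 := ⟨_, rfl⟩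
  have hN1 : 4 / ε0 < N := by
    rw [hN]; push_cast
    have := Nat.le_ceil (4 / ε0)
    linarith
  have hNp : (0 : ℝ) < N := lt_trans (by positivity) hN1
  obtain ⟨e, he⟩ : ∃ e : ℝ, e = min (ε0 / 2) (ε * κ / (16 * N)) := ⟨_, rfl⟩
  have he0 : 0 < e := by rw [he]; exact lt_min (by positivity) (by positivity)
  have he1 : e ≤ ε0 / 2 := by rw [he]; exact min_le_left _ _
  have he2 : e * (16 * N) ≤ ε * κ := by
    have : e ≤ ε * κ / (16 * N) := by rw [he]; exact min_le_right _ _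
    rwa [le_div_iff₀ (by positivity)] at this
  obtain ⟨η0, X, T1, hη0, hX, hT1, hup⟩ := up P S c α e hα0 hα he0 (by linarith)
  obtain ⟨T2, hT2, hpiece⟩ := hpiece e he0 (by linarith)
  obtain ⟨T3, hT3⟩ := ev_log (12 * N / (ε * κ) + 4)
  refine ⟨η0 / 2, X + 4, max (max T1 T2) T3 + X + 100, by positivity, by positivity,
    fun T hT hb Z hZ => ?_⟩
  have b1 : T1 ≤ max (max T1 T2) T3 := (le_max_left _ _).trans (le_max_left _ _)
  have b2 : T2 ≤ max (max T1 T2) T3 := (le_max_right _ _).trans (le_max_left _ _)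
  have b3 : T3 ≤ max (max T1 T2) T3 := le_max_right _ _
  have hT0 : 0 < T := by linarith
  obtain ⟨L, hL⟩ : ∃ L : ℝ, L = Real.log T := ⟨_, rfl⟩
  have hLe : 12 * N / (ε * κ) + 4 ≤ L := by rw [hL]; exact hT3 T (by linarith)
  have hq0 : 0 ≤ 12 * N / (ε * κ) := by positivity
  have hL4 : 4 ≤ L := by linarith
  have hLN : 12 * N ≤ ε * κ * L := by
    have h1 : 12 * N / (ε * κ) ≤ L := by linarith
    rw [div_le_iff₀ (by positivity)] at h1
    linarith
  have hlog : ∀ y : ℝ, |y - T| ≤ 4 → |Real.log y - L| ≤ 1 := fun y hy => by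
    rw [hL]
    exact log_near' (X := 4) (by norm_num) (by linarith) hy
  have hbd : ∀ s : ℂ, |s.im - T| ≤ 3 → 0 ≤ s.re → s.re ≤ α - ε0 / 2 →
      ‖LD P S c s‖ ≤ Real.exp (Real.log s.im * (1 / 2 - s.re + 2 * e)) := by
    intro s h1 h2 h3
    have h1' := abs_le.1 h1
    refine hup s.im (by linarith) (fun t ht => ?_) s rfl h2 (by linarith)
    have ht' := abs_le.1 ht
    refine (hb t (by rw [abs_le]; constructor <;> linarith)).trans (Real.exp_le_exp.2 ?_)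
    have h4 := abs_le.1 (hlog s.im (by linarith))
    rw [← hL]
    nlinarith
  obtain ⟨τ, hτ⟩ : ∃ τ : ℕ → ℝ, τ = fun j : ℕ => T - 1 + (j : ℝ) * (ε0 / 2) := ⟨_, rfl⟩
  have hj : ∀ j ∈ Finset.range N, T - 1 ≤ τ j → τ j ≤ T + 1 →
      ∑ z ∈ Z.filter (fun z => |z.im - τ j| ≤ ε0 / 2), (H370.mult (LD P S c) z : ℝ) ≤
        (4 * e * (L + 1) + 5) / κ := by
    intro j _ h1 h2
    have h3 := hpiece (τ j) (by linarith) (fun s hs1 hs2 hs3 => by
      have hs1' := abs_le.1 hs1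
      exact hbd s (by rw [abs_le]; constructor <;> linarith) hs2 hs3)
      (Z.filter (fun z => |z.im - τ j| ≤ ε0 / 2)) (fun z hz => by
        obtain ⟨hz1, hz2⟩ := Finset.mem_filter.1 hz
        obtain ⟨a1, a2, a3⟩ := hZ z hz1
        exact ⟨a1, by linarith, hz2⟩)
    refine h3.trans ?_
    apply div_le_div_of_nonneg_right _ hκ.le
    have h4 := abs_le.1 (hlog (τ j) (by rw [abs_le]; constructor <;> linarith))
    nlinarith
  classical
  have hcov : ∀ z ∈ Z, (H370.mult (LD P S c) z : ℝ) ≤ ∑ j ∈ Finset.range N,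
      if (T - 1 ≤ τ j ∧ τ j ≤ T + 1) ∧ |z.im - τ j| ≤ ε0 / 2 then (H370.mult (LD P S c) z : ℝ) else 0 := by
    intro z hz
    obtain ⟨a1, a2, a3⟩ := hZ z hz
    have a3' := abs_le.1 a3
    obtain ⟨j, hjd⟩ : ∃ j : ℕ, j = ⌊(z.im - (T - 1)) / (ε0 / 2)⌋₊ := ⟨_, rfl⟩
    have hnn : 0 ≤ (z.im - (T - 1)) / (ε0 / 2) := div_nonneg (by linarith) (by positivity)
    have h1 : (j : ℝ) ≤ (z.im - (T - 1)) / (ε0 / 2) := by rw [hjd]; exact Nat.floor_le hnn
    have h2 : (z.im - (T - 1)) / (ε0 / 2) < j + 1 := by rw [hjd]; exact Nat.lt_floor_add_one _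
    rw [le_div_iff₀ (by positivity)] at h1
    rw [div_lt_iff₀ (by positivity)] at h2
    have h3 : j < N := by
      have h4 : (j : ℝ) < N := by
        have h5 : (j : ℝ) ≤ 4 / ε0 := by
          rw [le_div_iff₀ h00]
          nlinarith
        linarith
      exact_mod_cast h4
    have h6 : (T - 1 ≤ τ j ∧ τ j ≤ T + 1) ∧ |z.im - τ j| ≤ ε0 / 2 := by
      rw [hτ]
      simp only
      have h7 : (0 : ℝ) ≤ j * (ε0 / 2) := by positivity
      refine ⟨⟨by linarith, by linarith⟩, ?_⟩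
      rw [abs_le]
      constructor <;> nlinarith
    refine le_trans ?_ (Finset.single_le_sum (f := fun j => if (T - 1 ≤ τ j ∧ τ j ≤ T + 1) ∧
      |z.im - τ j| ≤ ε0 / 2 then (H370.mult (LD P S c) z : ℝ) else 0) (fun i _ => by
        split_ifs
        · positivity
        · exact le_rfl) (Finset.mem_range.2 h3))
    rw [if_pos h6]
  refine (Finset.sum_le_sum hcov).trans ?_
  rw [Finset.sum_comm]
  have hterm : ∀ j ∈ Finset.range N, ∑ z ∈ Z, (if (T - 1 ≤ τ j ∧ τ j ≤ T + 1) ∧ |z.im - τ j| ≤ ε0 / 2 then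
      (H370.mult (LD P S c) z : ℝ) else 0) ≤ (4 * e * (L + 1) + 5) / κ := by
    intro j hjN
    by_cases h1 : T - 1 ≤ τ j ∧ τ j ≤ T + 1
    · have h2 := hj j hjN h1.1 h1.2
      rw [Finset.sum_filter] at h2
      refine le_trans (le_of_eq ?_) h2
      refine Finset.sum_congr rfl fun z _ => ?_
      simp only [h1, true_and, and_self]
    · have h2 : ∀ z ∈ Z, (if (T - 1 ≤ τ j ∧ τ j ≤ T + 1) ∧ |z.im - τ j| ≤ ε0 / 2 then
          (H370.mult (LD P S c) z : ℝ) else 0) = 0 := by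
        intro z _
        rw [if_neg]
        exact fun h => h1 h.1
      rw [Finset.sum_eq_zero h2]
      positivity
  refine (Finset.sum_le_sum hterm).trans ?_
  rw [Finset.sum_const, Finset.card_range, nsmul_eq_mul, ← mul_div_assoc, div_le_iff₀ hκ, ← hL]
  have h9 : N * (4 * e * (L + 1)) ≤ ε * κ / 4 * (L + 1) := by
    have : e * (16 * N) * (L + 1) ≤ ε * κ * (L + 1) := mul_le_mul_of_nonneg_right he2 (by linarith)
    linarith
  have h10 : ε * κ * 4 ≤ ε * κ * L := mul_le_mul_of_nonneg_left hL4 (by positivity)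
  nlinarith

end Q240.LH
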