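import Pool.Agent.Q240.LH.Up

/-!
# Small values of zeta imply few zeros to the left
-/

set_option autoImplicit false

namespace Q240.LH

open Complex Filter Topology Metric Set Polynomial
open Q240.SH

/-- the zeros in a small piece of the strip -/
theorem piece {F : ℂ → ℂ} (hF : Cls F) (α ε : ℝ) (hε : 0 < ε) (hεα : ε ≤ α) (hα : α ≤ 1 / 2) :
    ∃ κ : ℝ, 0 < κ ∧ ∀ e : ℝ, 0 < e → e ≤ 1 → ∃ T0 : ℝ, 100 ≤ T0 ∧ ∀ T : ℝ, T0 ≤ T →
    (∀ s : ℂ, |s.im - T| ≤ 2 → 0 ≤ s.re → s.re ≤ α - ε / 2 →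
      ‖F s‖ ≤ Real.exp (Real.log s.im * (1 / 2 - s.re + 2 * e))) →
    ∀ Z : Finset ℂ, (∀ z ∈ Z, 0 ≤ z.re ∧ z.re ≤ α - ε ∧ |z.im - T| ≤ ε / 2) →
      ∑ z ∈ Z, (H370.mult F z : ℝ) ≤ (4 * e * Real.log T + 5) / κ := by
  obtain ⟨R, hR⟩ : ∃ R : ℝ, R = 1 + α - ε / 2 := ⟨_, rfl⟩
  obtain ⟨r, hr⟩ : ∃ r : ℝ, r = 1 + α - 3 * ε / 4 := ⟨_, rfl⟩
  have hr0 : 0 < r := by rw [hr]; linarith
  have hrR : r < R := by rw [hr, hR]; linarith
  have hκ : 0 < Real.log (R / r) := Real.log_pos (by rw [lt_div_iff₀ hr0]; linarith)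
  refine ⟨Real.log (R / r), hκ, fun e he he1 => ?_⟩
  obtain ⟨T1, hT1, hbig⟩ := hF.big e he
  refine ⟨T1 + 100, by linarith, fun T hT hb Z hZ => ?_⟩
  have hT0 : 0 < T := by linarith
  obtain ⟨L, hL⟩ : ∃ L : ℝ, L = Real.log T := ⟨_, rfl⟩
  have hL1 : 1 ≤ L := by
    rw [hL, Real.le_log_iff_exp_le hT0]
    linarith [Real.exp_one_lt_d9]
  rw [← hL]
  obtain ⟨c, hc⟩ : ∃ c : ℂ, c = ⟨-1, T⟩ := ⟨_, rfl⟩
  have hcre : c.re = -1 := by rw [hc]
  have hcim : c.im = T := by rw [hc]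
  obtain ⟨f, hf⟩ : ∃ f : ℂ → ℂ, f = fun w => F w * cexp ((w - 1 / 2) * L) := ⟨_, rfl⟩
  have hfn : ∀ z : ℂ, ‖f z‖ = ‖F z‖ * Real.exp ((z.re - 1 / 2) * L) := by
    intro z
    rw [hf]
    exact norm_twist F L z
  have hball : ∀ z ∈ closedBall c R, -5 / 2 ≤ z.re ∧ z.re ≤ α - ε / 2 ∧ |z.im - T| ≤ 2 := by
    intro z hz
    rw [mem_closedBall, dist_eq_norm] at hz
    have h1 := abs_le.1 ((abs_re_le_norm (z - c)).trans hz)
    have h2 := (abs_im_le_norm (z - c)).trans hz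
    rw [sub_re, hcre, hR] at h1
    rw [sub_im, hcim] at h2
    refine ⟨by linarith, by linarith, h2.trans ?_⟩
    rw [hR]; linarith
  have him : ∀ z ∈ closedBall c R, 0 < z.im ∧ T1 ≤ z.im := by
    intro z hz
    have := abs_le.1 (hball z hz).2.2
    constructor <;> linarith
  have hup : ∀ z ∈ closedBall c R, ‖F z‖ ≤ Real.exp (Real.log z.im * (1 / 2 - z.re + 2 * e)) := by
    intro z hz
    obtain ⟨h1, h2, h3⟩ := hball z hz
    rcases le_total z.re 0 with h4 | h4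
    · have h5 := (hbig z (him z hz).2 (by linarith) h4).2
      refine h5.trans (Real.exp_le_exp.2 ?_)
      have h6 : 0 ≤ Real.log z.im := Real.log_nonneg (by have := (him z hz).2; linarith)
      nlinarith
    · exact hb z h3 h4 h2
  have hM : ∀ z ∈ closedBall c R, ‖f z‖ ≤ Real.exp (2 * e * L + 5) := by
    intro z hz
    obtain ⟨h1, h2, h3⟩ := hball z hz
    rw [hfn]
    have h4 := hup z hz
    have h5 := abs_le.1 (log_near' (T := T) (y := z.im) (X := 2) (by norm_num) (by linarith) h3)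
    rw [← hL] at h5
    have h6 : 0 ≤ 1 / 2 - z.re + 2 * e := by linarith
    have h7 : Real.log z.im * (1 / 2 - z.re + 2 * e) ≤ (L + 1) * (1 / 2 - z.re + 2 * e) :=
      mul_le_mul_of_nonneg_right (by linarith) h6
    calc _ ≤ Real.exp ((L + 1) * (1 / 2 - z.re + 2 * e)) * Real.exp ((z.re - 1 / 2) * L) :=
          mul_le_mul_of_nonneg_right (h4.trans (Real.exp_le_exp.2 h7)) (Real.exp_pos _).le
      _ ≤ _ := by
          rw [← Real.exp_add]
          apply Real.exp_le_exp.2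
          nlinarith
  have hcR : c ∈ closedBall c R := mem_closedBall_self (by linarith)
  have hlow : Real.exp (-(e * L)) ≤ ‖f c‖ := by
    rw [hfn, hcre]
    have h7 := (hbig c (him c hcR).2 (by rw [hcre]; norm_num) (by rw [hcre]; norm_num)).1
    rw [hcim, hcre, ← hL] at h7
    calc Real.exp (-(e * L)) = Real.exp (L * (1 / 2 - -1 - e)) * Real.exp ((-1 - 1 / 2) * L) := by
          rw [← Real.exp_add]; congr 1; ring
      _ ≤ _ := mul_le_mul_of_nonneg_right h7 (Real.exp_pos _).le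
  have hfc : 0 < ‖f c‖ := lt_of_lt_of_le (Real.exp_pos _) hlow
  have hj := H370.Loc.jensen_mult (f := f) (c := c) (r := r) (R := R) (M := Real.exp (2 * e * L + 5))
    hr0 hrR (Real.one_le_exp (by positivity))
    (fun w hw => by
      rw [hf]
      exact (hF.an w (him w hw).1).mul (by fun_prop))
    (norm_pos_iff.1 hfc) hM Z (fun z hz => by
      obtain ⟨h1, h2, h3⟩ := hZ z hz
      rw [mem_closedBall, dist_eq_norm]
      have h4 : ‖z - c‖ ^ 2 ≤ r ^ 2 := by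
        rw [← Complex.normSq_eq_norm_sq, normSq_apply, sub_re, sub_im, hcre, hcim]
        have h5 : (z.im - T) * (z.im - T) ≤ (ε / 2) * (ε / 2) := by
          have := abs_le.1 h3
          nlinarith
        have h6 : (z.re - -1) * (z.re - -1) ≤ (1 + α - ε) * (1 + α - ε) := by nlinarith
        rw [hr]
        nlinarith
      exact abs_le_of_sq_le_sq' h4 hr0.le |>.2)
  have hmult : ∑ z ∈ Z, (H370.mult f z : ℝ) = ∑ z ∈ Z, (H370.mult F z : ℝ) := by
    refine Finset.sum_congr rfl fun z hz => ?_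
    have h3 := abs_le.1 (hZ z hz).2.2
    rw [hf, mult_mul_exp (hF.an z (by linarith))]
  rw [hmult] at hj
  refine hj.trans ?_
  apply div_le_div_of_nonneg_right _ hκ.le
  rw [Real.log_div (Real.exp_pos _).ne' hfc.ne', Real.log_exp]
  have h8 := Real.log_le_log (Real.exp_pos _) hlow
  rw [Real.log_exp] at h8
  nlinarith

end Q240.LH
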