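import Pool.Agent.Q240.LH.Few
import Pool.Agent.Q240.SH.Shadow

/-!
# From a linear differential polynomial back to zeta
-/

set_option autoImplicit false

namespace Q240.LH

open Complex Filter Topology Metric Set Polynomial
open Q240.SH

theorem cls_LP (P : ℂ[X]) (hP : P ≠ 0) : Cls (LP P) := by
  have h1 := cls_LD P hP ∅ (fun _ => 0)
  have h2 : LD P ∅ (fun _ => 0) = LP P := by funext s; exact LD_empty P _ s
  rwa [h2] at h1

theorem ne_one_of_im {s : ℂ} (h : 0 < s.im) : s ≠ 1 := by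
  intro h1
  rw [h1, one_im] at h
  exact lt_irrefl _ h

theorem desc (n : ℕ) : ∀ P : ℂ[X], P ≠ 0 → P.natDegree = n → ∃ C T0 : ℝ, 1 ≤ C ∧ 0 < T0 ∧
    ∀ t : ℝ, T0 ≤ t → ∀ σ : ℝ, -1 ≤ σ → ∀ M : ℝ, 1 ≤ M →
    (∀ x : ℝ, σ ≤ x → x ≤ 2 → ‖LP P (⟨x, t⟩ : ℂ)‖ ≤ M) →
    ∀ x : ℝ, σ ≤ x → x ≤ 2 → ‖riemannZeta (⟨x, t⟩ : ℂ)‖ ≤ C * M := by
  induction n with
  | zero =>
    intro P hP hdeg
    obtain ⟨c, hc⟩ := Polynomial.natDegree_eq_zero.1 hdeg
    have hc0 : c ≠ 0 := by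
      rintro rfl
      rw [C_0] at hc
      exact hP hc.symm
    have hcn : 0 < ‖c‖ := norm_pos_iff.2 hc0
    refine ⟨max 1 (1 / ‖c‖), 1, le_max_left _ _, one_pos, fun t ht σ hσ M hM hb x h1 h2 => ?_⟩
    have h3 := hb x h1 h2
    have h4 : LP P (⟨x, t⟩ : ℂ) = c * riemannZeta (⟨x, t⟩ : ℂ) := by
      have h5 : P = monomial 0 c := by rw [← hc]; rfl
      rw [h5, LP_monomial, iteratedDeriv_zero]
    rw [h4, norm_mul] at h3
    have h6 : ‖riemannZeta (⟨x, t⟩ : ℂ)‖ ≤ 1 / ‖c‖ * M := by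
      rw [one_div, ← div_eq_inv_mul, le_div_iff₀ hcn, mul_comm]
      exact h3
    refine h6.trans ?_
    exact mul_le_mul_of_nonneg_right (le_max_right _ _) (by linarith)
  | succ n ih =>
    intro P hP hdeg
    obtain ⟨a, ha⟩ := IsAlgClosed.exists_root P (by
      intro h
      rw [Polynomial.degree_eq_natDegree hP, hdeg] at h
      norm_cast at h)
    obtain ⟨Q, hQ⟩ := dvd_iff_isRoot.2 ha
    have hQ0 : Q ≠ 0 := by
      rintro rfl
      rw [mul_zero] at hQ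
      exact hP hQ
    have hQd : Q.natDegree = n := by
      have h1 := congrArg natDegree hQ
      rw [natDegree_mul (X_sub_C_ne_zero a) hQ0, natDegree_X_sub_C, hdeg] at h1
      omega
    obtain ⟨C1, T1, hC1, hT1, h⟩ := ih Q hQ0 hQd
    obtain ⟨N, T2, hN, hr⟩ := (cls_LP Q hQ0).right
    obtain ⟨E, hE⟩ : ∃ E : ℝ, E = Real.exp (3 * ‖a‖) := ⟨_, rfl⟩
    have hE1 : 1 ≤ E := by rw [hE]; exact Real.one_le_exp (by positivity)
    obtain ⟨W, hW⟩ : ∃ W : ℝ, W = E * (N + 3 * E) := ⟨_, rfl⟩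
    have hW1 : 1 ≤ W := by rw [hW]; nlinarith
    refine ⟨C1 * W, max T1 (max T2 1), by nlinarith, lt_of_lt_of_le hT1 (le_max_left _ _),
      fun t ht σ hσ M hM hb x h1 h2 => ?_⟩
    have b1 : T1 ≤ t := (le_max_left _ _).trans ht
    have b2 : T2 ≤ t := ((le_max_left _ _).trans (le_max_right _ _)).trans ht
    have b3 : 1 ≤ t := ((le_max_right _ _).trans (le_max_right _ _)).trans ht
    have hstep : ∀ y : ℝ, σ ≤ y → y ≤ 2 → ‖LP Q (⟨y, t⟩ : ℂ)‖ ≤ W * M := by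
      intro y hy1 hy2
      have h3 := ode_step (H := LP Q) (K := LP P) (a := a) (t := t) (σ := σ) (M := M) (N := N) hσ
        (by linarith) (fun y hy1 hy2 => by
          have h4 := LP_deriv Q (s := (⟨y, t⟩ : ℂ)) (ne_one_of_im (by simp only; linarith))
          refine h4.congr_deriv ?_
          have h5 : P = X * Q + C (-a) * Q := by
            rw [hQ, C_neg]; ring
          rw [h5, LP_add, LP_C_mul]
          ring)
        (hr (⟨2, t⟩ : ℂ) rfl b2) hb (x := y) hy1 hy2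
      rw [← hE] at h3
      refine h3.trans ?_
      rw [hW]
      have h6 : N ≤ N * M := le_mul_of_one_le_right hN.le hM
      nlinarith
    have h7 := h t b1 σ hσ (W * M) (by nlinarith) hstep x h1 h2
    calc _ ≤ _ := h7
      _ = _ := by ring

end Q240.LH
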