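import Pool.Agent.Q240.LH.Conv

/-!
# The dictionary between values of zeta and zeros to the left
-/

set_option autoImplicit false

namespace Q240.LH

open Complex Filter Topology Metric Set Polynomial
open Q240.SH

/-- The Lindelof bound on the vertical line `Re s = σ`. -/
def LindelofAt (σ : ℝ) : Prop := ∀ ε : ℝ, 0 < ε → ∃ C : ℝ, ∀ t : ℝ,
  ‖riemannZeta (σ + t * I)‖ ≤ C * (1 + |t|) ^ ε

/-- The number of zeros with `0 ≤ Re s ≤ a` and `|Im s - T| ≤ h`. -/
noncomputable def left (f : ℂ → ℂ) (a T h : ℝ) : ℕ :=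
  ∑ᶠ s ∈ {s : ℂ | f s = 0 ∧ 0 ≤ s.re ∧ s.re ≤ a ∧ |s.im - T| ≤ h}, analyticOrderNatAt f s

theorem left_set (P : ℂ[X]) (hP : P ≠ 0) (S : Finset ℝ) (c : ℝ → ℂ) (a T h : ℝ) (hT : h < T) :
    ∃ Z : Finset ℂ, (∀ z, z ∈ Z ↔ LD P S c z = 0 ∧ 0 ≤ z.re ∧ z.re ≤ a ∧ |z.im - T| ≤ h) ∧
      (left (LD P S c) a T h : ℝ) = ∑ z ∈ Z, (H370.mult (LD P S c) z : ℝ) := by
  have hfin : {s : ℂ | LD P S c s = 0 ∧ 0 ≤ s.re ∧ s.re ≤ a ∧ |s.im - T| ≤ h}.Finite := by
    refine (fin_compact P hP S c (Icc 0 a ×ℂ Icc (T - h) (T + h)) (isCompact_Icc.reProdIm isCompact_Icc)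
      ?_).subset ?_
    · intro h1
      rw [mem_reProdIm] at h1
      have := h1.2.1
      rw [one_im] at this
      linarith
    · rintro s ⟨h1, h2, h3, h4⟩
      have h4' := abs_le.1 h4
      refine ⟨?_, h1⟩
      rw [mem_reProdIm]
      exact ⟨⟨h2, h3⟩, by linarith, by linarith⟩
  refine ⟨hfin.toFinset, fun z => by rw [hfin.mem_toFinset]; rfl, ?_⟩
  unfold left
  rw [finsum_mem_eq_finite_toFinset_sum _ hfin]
  push_cast
  rfl

theorem large_zeros (P : ℂ[X]) (hP : P ≠ 0) (S : Finset ℝ) (c : ℝ → ℂ) (α ε h : ℝ) (hα0 : 0 < α)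
    (hα : α ≤ 1 / 2) (hε : 0 < ε) (hh : 0 < h) : ∃ η C T0 : ℝ, 0 < η ∧ 0 < C ∧ C < T0 ∧ ∀ T : ℝ, T0 ≤ T →
    (left (LD P S c) (α - η) T C : ℝ) ≤ η * Real.log T →
    ∀ t : ℝ, |t - T| ≤ h → ‖riemannZeta (⟨1 - α, t⟩ : ℂ)‖ ≤ Real.exp (ε * Real.log T) := by
  obtain ⟨η, C, T0, hη, hC, hmain⟩ := few_zeta P hP S c α ε h hα0 hα hε hh
  refine ⟨η, C, max T0 (C + 1), hη, hC, by linarith [le_max_right T0 (C + 1)], fun T hT hl t ht => ?_⟩
  have b1 := (le_max_left T0 (C + 1)).trans hT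
  have b2 := (le_max_right T0 (C + 1)).trans hT
  obtain ⟨Z0, hZ0, hsum⟩ := left_set P hP S c (α - η) T C (by linarith)
  refine hmain T b1 (fun Z hZ => ?_) t ht
  rw [hsum] at hl
  refine le_trans ?_ hl
  exact Finset.sum_le_sum_of_subset_of_nonneg (fun z hz => (hZ0 z).2 (hZ z hz))
    (fun _ _ _ => Nat.cast_nonneg _)

theorem small_few (P : ℂ[X]) (hP : P ≠ 0) (S : Finset ℝ) (c : ℝ → ℂ) (α ε : ℝ) (hα0 : 0 < α)
    (hα : α ≤ 1 / 2) (hε : 0 < ε) : ∃ η C T0 : ℝ, 0 < η ∧ 0 < C ∧ C < T0 ∧ ∀ T : ℝ, T0 ≤ T →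
    (∀ t : ℝ, |t - T| ≤ C → ‖riemannZeta (⟨1 - α, t⟩ : ℂ)‖ ≤ Real.exp (η * Real.log T)) →
    (left (LD P S c) (α - ε) T 1 : ℝ) ≤ ε * Real.log T := by
  obtain ⟨η, C, T0, hη, hC, hmain⟩ := zeta_few P hP S c α ε hα0 hα hε
  refine ⟨η, C, max T0 (C + 2), hη, hC, by linarith [le_max_right T0 (C + 2)], fun T hT hl => ?_⟩
  have b1 := (le_max_left T0 (C + 2)).trans hT
  have b2 := (le_max_right T0 (C + 2)).trans hT
  obtain ⟨Z0, hZ0, hsum⟩ := left_set P hP S c (α - ε) T 1 (by linarith)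
  rw [hsum]
  exact hmain T b1 hl Z0 fun z hz => ((hZ0 z).1 hz).2

theorem transfer (P Q : ℂ[X]) (hP : P ≠ 0) (hQ : Q ≠ 0) (S R : Finset ℝ) (c d : ℝ → ℂ) (α ε : ℝ)
    (hα0 : 0 < α) (hα : α ≤ 1 / 2) (hε : 0 < ε) : ∃ η C T0 : ℝ, 0 < η ∧ 0 < C ∧ ∀ T : ℝ, T0 ≤ T →
    (left (LD P S c) (α - η) T C : ℝ) ≤ η * Real.log T →
    (left (LD Q R d) (α - ε) T 1 : ℝ) ≤ ε * Real.log T := by
  obtain ⟨η1, C1, T1, hη1, hC1, -, h1⟩ := small_few Q hQ R d α ε hα0 hα hε
  obtain ⟨η, C, T2, hη, hC, -, h2⟩ := large_zeros P hP S c α η1 C1 hα0 hα hη1 hC1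
  exact ⟨η, C, max T1 T2, hη, hC, fun T hT hl => h1 T ((le_max_left _ _).trans hT)
    (h2 T ((le_max_right _ _).trans hT) hl)⟩

/-- covering a high box by unit boxes -/
theorem left_cover (P : ℂ[X]) (hP : P ≠ 0) (S : Finset ℝ) (c : ℝ → ℂ) (a a' C B : ℝ) (haa : a ≤ a')
    (hC : 0 < C) (N : ℕ) (hN : 2 * C < N) (T : ℝ) (hT : C + 2 < T)
    (hB : ∀ y : ℝ, |y - T| ≤ C → (left (LD P S c) a' y 1 : ℝ) ≤ B) :
    (left (LD P S c) a T C : ℝ) ≤ N * B := by
  classical
  obtain ⟨Z, hZ, hsum⟩ := left_set P hP S c a T C (by linarith)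
  rw [hsum]
  obtain ⟨τ, hτ⟩ : ∃ τ : ℕ → ℝ, τ = fun j : ℕ => T - C + (j : ℝ) := ⟨_, rfl⟩
  have hB0 : 0 ≤ B := le_trans (Nat.cast_nonneg _) (hB T (by simp; exact hC.le))
  have hcov : ∀ z ∈ Z, (H370.mult (LD P S c) z : ℝ) ≤ ∑ j ∈ Finset.range N,
      if τ j ≤ T + C ∧ |z.im - τ j| ≤ 1 then (H370.mult (LD P S c) z : ℝ) else 0 := by
    intro z hz
    obtain ⟨-, -, -, a3⟩ := (hZ z).1 hz
    have a3' := abs_le.1 a3
    obtain ⟨j, hjd⟩ : ∃ j : ℕ, j = ⌊z.im - (T - C)⌋₊ := ⟨_, rfl⟩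
    have hnn : 0 ≤ z.im - (T - C) := by linarith
    have h1 : (j : ℝ) ≤ z.im - (T - C) := by rw [hjd]; exact Nat.floor_le hnn
    have h2 : z.im - (T - C) < j + 1 := by rw [hjd]; exact Nat.lt_floor_add_one _
    have h3 : j < N := by
      have h4 : (j : ℝ) < N := by linarith
      exact_mod_cast h4
    have h6 : τ j ≤ T + C ∧ |z.im - τ j| ≤ 1 := by
      rw [hτ]
      simp only
      refine ⟨by linarith, ?_⟩
      rw [abs_le]
      constructor <;> linarith
    refine le_trans ?_ (Finset.single_le_sum (f := fun j => if τ j ≤ T + C ∧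
      |z.im - τ j| ≤ 1 then (H370.mult (LD P S c) z : ℝ) else 0) (fun i _ => by
        split_ifs
        · positivity
        · exact le_rfl) (Finset.mem_range.2 h3))
    rw [if_pos h6]
  refine (Finset.sum_le_sum hcov).trans ?_
  rw [Finset.sum_comm]
  have hterm : ∀ j ∈ Finset.range N, ∑ z ∈ Z, (if τ j ≤ T + C ∧ |z.im - τ j| ≤ 1 then
      (H370.mult (LD P S c) z : ℝ) else 0) ≤ B := by
    intro j hjN
    by_cases h1 : τ j ≤ T + C
    · have h2 : T - C ≤ τ j := by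
        rw [hτ]
        simp
      have h3 := hB (τ j) (by rw [abs_le]; constructor <;> linarith)
      obtain ⟨Z1, hZ1, hsum1⟩ := left_set P hP S c a' (τ j) 1 (by linarith)
      rw [hsum1] at h3
      refine le_trans ?_ h3
      have h4 : ∑ z ∈ Z, (if τ j ≤ T + C ∧ |z.im - τ j| ≤ 1 then (H370.mult (LD P S c) z : ℝ) else 0) =
          ∑ z ∈ Z.filter (fun z => |z.im - τ j| ≤ 1), (H370.mult (LD P S c) z : ℝ) := by
        rw [Finset.sum_filter]
        refine Finset.sum_congr rfl fun z _ => ?_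
        simp only [h1, true_and]
      rw [h4]
      refine Finset.sum_le_sum_of_subset_of_nonneg (fun z hz => ?_) (fun _ _ _ => Nat.cast_nonneg _)
      obtain ⟨hz1, hz2⟩ := Finset.mem_filter.1 hz
      obtain ⟨c1, c2, c3, -⟩ := (hZ z).1 hz1
      exact (hZ1 z).2 ⟨c1, c2, by linarith, hz2⟩
    · rw [Finset.sum_eq_zero]
      · exact hB0
      · intro z _
        rw [if_neg]
        exact fun h => h1 h.1
  refine (Finset.sum_le_sum hterm).trans ?_
  rw [Finset.sum_const, Finset.card_range, nsmul_eq_mul]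

theorem mk_eq (σ t : ℝ) : (⟨σ, t⟩ : ℂ) = σ + t * I := by
  apply Complex.ext <;> simp

theorem lindelof_iff (P : ℂ[X]) (hP : P ≠ 0) (S : Finset ℝ) (c : ℝ → ℂ) (α : ℝ)
    (hα0 : 0 < α) (hα : α ≤ 1 / 2) :
    LindelofAt (1 - α) ↔ ∀ ε : ℝ, 0 < ε →
      ∀ᶠ T : ℝ in atTop, (left (LD P S c) (α - ε) T 1 : ℝ) ≤ ε * Real.log T := by
  constructor
  · intro hL ε hε
    obtain ⟨η, C, T0, hη, hC, hT0, hmain⟩ := small_few P hP S c α ε hα0 hα hε
    obtain ⟨D, hD⟩ := hL (η / 2) (half_pos hη)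
    have hD0 : 0 ≤ D := by
      have h1 := (norm_nonneg _).trans (hD 0)
      rw [abs_zero, add_zero, Real.one_rpow, mul_one] at h1
      exact h1
    obtain ⟨T1, hT1⟩ := ev_log ((Real.log (D + 1) + Real.log 2 * (η / 2)) / (η / 2))
    filter_upwards [eventually_ge_atTop (max (max T0 T1) (2 * C + 2))] with T hT
    have b1 : T0 ≤ T := ((le_max_left _ _).trans (le_max_left _ _)).trans hT
    have b2 : T1 ≤ T := ((le_max_right _ _).trans (le_max_left _ _)).trans hT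
    have b3 : 2 * C + 2 ≤ T := (le_max_right _ _).trans hT
    have hTp : 0 < T := by linarith
    refine hmain T b1 fun t ht => ?_
    have ht' := abs_le.1 ht
    rw [mk_eq]
    refine (hD t).trans ?_
    have h1 : (1 + |t|) ^ (η / 2) ≤ (2 * T) ^ (η / 2) := by
      apply Real.rpow_le_rpow (by positivity) _ (by positivity)
      rw [abs_of_pos (by linarith)]
      linarith
    have h2 := hT1 T b2
    rw [div_le_iff₀ (by positivity)] at h2
    calc D * (1 + |t|) ^ (η / 2) ≤ (D + 1) * (2 * T) ^ (η / 2) := by gcongr; linarith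
      _ = Real.exp (Real.log (D + 1) + (Real.log 2 + Real.log T) * (η / 2)) := by
          rw [Real.exp_add, Real.exp_log (by linarith), Real.rpow_def_of_pos (by positivity),
            Real.log_mul (by norm_num) hTp.ne']
      _ ≤ _ := by
          apply Real.exp_le_exp.2
          nlinarith
  · intro h ε hε
    obtain ⟨η, C, T0, hη, hC, hT0, hmain⟩ := large_zeros P hP S c α ε 1 hα0 hα hε one_pos
    obtain ⟨N, hN⟩ : ∃ N : ℕ, N = ⌈2 * C⌉₊ + 1 := ⟨_, rfl⟩
    have hN1 : 2 * C < N := by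
      rw [hN]; push_cast
      have := Nat.le_ceil (2 * C)
      linarith
    have hNp : (0 : ℝ) < N := by linarith
    obtain ⟨e, he⟩ : ∃ e : ℝ, e = min η (η / (2 * N)) := ⟨_, rfl⟩
    have he0 : 0 < e := by rw [he]; exact lt_min hη (by positivity)
    have he1 : e ≤ η := by rw [he]; exact min_le_left _ _
    have he2 : e * (2 * N) ≤ η := by
      have : e ≤ η / (2 * N) := by rw [he]; exact min_le_right _ _
      rwa [le_div_iff₀ (by positivity)] at this
    obtain ⟨T1, hT1⟩ := Filter.eventually_atTop.1 (h e he0)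
    obtain ⟨Y, hY⟩ : ∃ Y : ℝ, Y = max (max T0 T1 + C) (2 * C + 100) := ⟨_, rfl⟩
    have y1 : T0 + C ≤ Y := by
      rw [hY]; exact le_trans (by linarith [le_max_left T0 T1]) (le_max_left _ _)
    have y2 : T1 + C ≤ Y := by
      rw [hY]; exact le_trans (by linarith [le_max_right T0 T1]) (le_max_left _ _)
    have y3 : 2 * C + 100 ≤ Y := by rw [hY]; exact le_max_right _ _
    have hbig : ∀ t : ℝ, Y ≤ t → ‖riemannZeta ((1 - α : ℝ) + t * I)‖ ≤ (1 + |t|) ^ ε := by
      intro t ht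
      have ht0 : 0 < t := by linarith
      have h1 : (left (LD P S c) (α - η) t C : ℝ) ≤ N * (e * (2 * Real.log t)) := by
        refine left_cover P hP S c (α - η) (α - e) C _ (by linarith) hC N hN1 t (by linarith)
          (fun y hy => ?_)
        have hy' := abs_le.1 hy
        refine (hT1 y (by linarith)).trans (mul_le_mul_of_nonneg_left ?_ he0.le)
        have h2 := abs_le.1 (log_near' (T := t) (y := y) (X := C) hC.le (by linarith) hy)
        have h3 : 1 ≤ Real.log t := by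
          rw [Real.le_log_iff_exp_le ht0]
          linarith [Real.exp_one_lt_d9]
        linarith
      have h3 : 0 ≤ Real.log t := Real.log_nonneg (by linarith)
      have h2 : (left (LD P S c) (α - η) t C : ℝ) ≤ η * Real.log t := by
        refine h1.trans ?_
        have := mul_le_mul_of_nonneg_right he2 h3
        linarith
      have h4 := hmain t (by linarith) h2 t (by simp)
      rw [mk_eq] at h4
      refine h4.trans ?_
      rw [Real.rpow_def_of_pos (by positivity)]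
      apply Real.exp_le_exp.2
      rw [mul_comm]
      apply mul_le_mul_of_nonneg_right _ hε.le
      apply Real.log_le_log ht0
      rw [abs_of_pos ht0]
      linarith
    have hcont : ContinuousOn (fun t : ℝ => ‖riemannZeta ((1 - α : ℝ) + t * I)‖) (Icc (-Y) Y) := by
      intro t _
      have h1 : ((1 - α : ℝ) : ℂ) + t * I ≠ 1 := by
        intro h2
        have := congrArg Complex.re h2
        simp at this
        linarith
      have h2 : ContinuousAt (fun t : ℝ => riemannZeta ((1 - α : ℝ) + t * I)) t :=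
        ContinuousAt.comp (g := riemannZeta) (f := fun t : ℝ => ((1 - α : ℝ) : ℂ) + t * I)
          (differentiableAt_riemannZeta h1).continuousAt (by fun_prop)
      exact h2.norm.continuousWithinAt
    obtain ⟨M, hM⟩ := isCompact_Icc.bddAbove_image hcont
    refine ⟨max M 1, fun t => ?_⟩
    have hone : 1 ≤ (1 + |t|) ^ ε := Real.one_le_rpow (by linarith [abs_nonneg t]) hε.le
    have hM1 : 1 ≤ max M 1 := le_max_right _ _
    rcases le_total |t| Y with h1 | h1
    · have h2 : ‖riemannZeta ((1 - α : ℝ) + t * I)‖ ≤ M := hM ⟨t, abs_le.1 h1, rfl⟩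
      calc _ ≤ max M 1 := h2.trans (le_max_left _ _)
        _ ≤ _ := le_mul_of_one_le_right (by linarith) hone
    · have h2 : ‖riemannZeta ((1 - α : ℝ) + t * I)‖ = ‖riemannZeta ((1 - α : ℝ) + (|t| : ℝ) * I)‖ := by
        rcases abs_choice t with h3 | h3
        · rw [h3]
        · rw [h3, Q240.QS.conj_line]
      rw [h2]
      have h3 := hbig |t| h1
      rw [abs_abs] at h3
      calc _ ≤ _ := h3
        _ ≤ _ := le_mul_of_one_le_left (by positivity) hM1

end Q240.LH
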