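import Pool.Agent.Q240.SH.Both
import Pool.Agent.H31R2.DH.Back

/-!
# Local growth: the maximum principle in a rectangle, and a first order equation
-/

set_option autoImplicit false

namespace Q240.LH

open Complex Filter Topology Metric Set Polynomial
open Q240.SH

/-- maximum principle in a rectangle -/
theorem rect_max {f : ℂ → ℂ} {x0 x1 y0 y1 B : ℝ} (hx : x0 < x1) (hy : y0 < y1)
    (hf : ∀ s : ℂ, x0 ≤ s.re → s.re ≤ x1 → y0 ≤ s.im → s.im ≤ y1 → DifferentiableAt ℂ f s)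
    (hb : ∀ s : ℂ, x0 ≤ s.re → s.re ≤ x1 → y0 ≤ s.im → s.im ≤ y1 →
      (s.re = x0 ∨ s.re = x1 ∨ s.im = y0 ∨ s.im = y1) → ‖f s‖ ≤ B)
    {s : ℂ} (h1 : x0 ≤ s.re) (h2 : s.re ≤ x1) (h3 : y0 ≤ s.im) (h4 : s.im ≤ y1) : ‖f s‖ ≤ B := by
  have hcl : closure (Ioo x0 x1 ×ℂ Ioo y0 y1) = Icc x0 x1 ×ℂ Icc y0 y1 := by
    rw [closure_reProdIm, closure_Ioo hx.ne, closure_Ioo hy.ne]
  have hbd : Bornology.IsBounded (Ioo x0 x1 ×ℂ Ioo y0 y1) :=
    (isBounded_Ioo x0 x1).reProdIm (isBounded_Ioo y0 y1)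
  refine Complex.norm_le_of_forall_mem_frontier_norm_le hbd ?_ ?_ (by rw [hcl]; exact ⟨⟨h1, h2⟩, ⟨h3, h4⟩⟩)
  · apply DifferentiableOn.diffContOnCl
    rw [hcl]
    rintro z ⟨⟨a1, a2⟩, ⟨a3, a4⟩⟩
    exact (hf z a1 a2 a3 a4).differentiableWithinAt
  · intro z hz
    rw [frontier_reProdIm, closure_Ioo hx.ne, closure_Ioo hy.ne, frontier_Ioo hx, frontier_Ioo hy] at hz
    rcases hz with ⟨⟨a1, a2⟩, a3⟩ | ⟨a1, ⟨a3, a4⟩⟩
    · rcases a3 with a3 | a3
      · have a3' : z.im = y0 := a3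
        exact hb z a1 a2 a3'.ge (by linarith) (Or.inr (Or.inr (Or.inl a3')))
      · have a3' : z.im = y1 := a3
        exact hb z a1 a2 (by linarith) a3'.le (Or.inr (Or.inr (Or.inr a3')))
    · rcases a1 with a1 | a1
      · have a1' : z.re = x0 := a1
        exact hb z a1'.ge (by linarith) a3 a4 (Or.inl a1')
      · have a1' : z.re = x1 := a1
        exact hb z (by linarith) a1'.le a3 a4 (Or.inr (Or.inl a1'))

theorem ev_log (C : ℝ) : ∃ T0 : ℝ, ∀ t : ℝ, T0 ≤ t → C ≤ Real.log t :=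
  Filter.eventually_atTop.1 (Real.tendsto_log_atTop.eventually_ge_atTop C)

/-- local propagation of a bound to the right -/
theorem local_pl {F : ℂ → ℂ} (hF : Cls F) (η : ℝ) (hη : 0 < η) : ∃ X T0 : ℝ, 1 ≤ X ∧
    2 * X + 100 ≤ T0 ∧ ∀ T : ℝ, T0 ≤ T → ∀ σ B : ℝ, 0 ≤ σ → σ ≤ 1 → 0 ≤ B →
    (∀ s : ℂ, s.re = σ → |s.im - T| ≤ X → ‖F s‖ ≤ Real.exp (B * Real.log T)) →
    ∀ s : ℂ, s.im = T → σ ≤ s.re → s.re ≤ 2 → ‖F s‖ ≤ Real.exp ((B + η) * Real.log T) := by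
  obtain ⟨A, T1, hA, hT1, hg⟩ := hF.grow
  obtain ⟨C, T2, hC, hr⟩ := hF.right
  obtain ⟨κ, hκ⟩ : ∃ κ : ℝ, κ = η / 5 := ⟨_, rfl⟩
  have hκ0 : 0 < κ := by rw [hκ]; positivity
  obtain ⟨X, hX⟩ : ∃ X : ℝ, X = (2 * A + 4 * κ) / κ + 1 := ⟨_, rfl⟩
  have hX1 : 1 ≤ X := by
    rw [hX]
    have : 0 ≤ (2 * A + 4 * κ) / κ := by positivity
    linarith
  have hX2 : 2 * A + 4 * κ ≤ κ * X ^ 2 := by
    have h1 : 2 * A + 4 * κ ≤ κ * X := by
      rw [hX, mul_add, mul_div_cancel₀ _ hκ0.ne']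
      linarith
    nlinarith
  obtain ⟨T3, hT3⟩ := ev_log (Real.log C / κ + 1)
  refine ⟨X, max (max T1 T2 + X) (max T3 (2 * X + 100)), hX1,
    (le_max_right _ _).trans (le_max_right _ _), fun T hT σ B hσ0 hσ1 hB hl s hs1 hs2 hs3 => ?_⟩
  have b1 : max T1 T2 + X ≤ T := (le_max_left _ _).trans hT
  have b2 : T3 ≤ T := ((le_max_left _ _).trans (le_max_right _ _)).trans hT
  have b3 : 2 * X + 100 ≤ T := ((le_max_right _ _).trans (le_max_right _ _)).trans hT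
  have b4 : T1 ≤ T - X := by linarith [le_max_left T1 T2]
  have b5 : T2 ≤ T - X := by linarith [le_max_right T1 T2]
  have hT0 : 0 < T := by linarith
  obtain ⟨L, hL⟩ : ∃ L : ℝ, L = Real.log T := ⟨_, rfl⟩
  have hL1 : 1 ≤ L := by
    rw [hL, Real.le_log_iff_exp_le hT0]
    linarith [Real.exp_one_lt_d9]
  have hLC : Real.log C ≤ κ * L := by
    have := hT3 T b2
    rw [← hL] at this
    have h2 : Real.log C / κ ≤ L := by linarith
    rw [div_le_iff₀ hκ0] at h2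
    linarith
  rw [← hL] at hl ⊢
  obtain ⟨f, hf⟩ : ∃ f : ℂ → ℂ, f = fun z => F z * cexp ((κ * L : ℝ) * (z - T * I) ^ 2) := ⟨_, rfl⟩
  have hfn : ∀ z : ℂ, ‖f z‖ = ‖F z‖ * Real.exp (κ * L * (z.re ^ 2 - (z.im - T) ^ 2)) := by
    intro z
    rw [hf]
    simp only
    rw [norm_mul, Complex.norm_exp, re_ofReal_mul]
    congr 3
    rw [sq, mul_re]
    simp
    ring
  have hkey : ‖f s‖ ≤ Real.exp ((B + 5 * κ) * L) := by
    refine rect_max (x0 := σ) (x1 := 2) (y0 := T - X) (y1 := T + X) (by linarith) (by linarith)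
      ?_ ?_ hs2 hs3 (by linarith) (by linarith)
    · intro z h1 h2 h3 h4
      rw [hf]
      have h5 : DifferentiableAt ℂ F z := (hF.an z (by linarith)).differentiableAt
      have h6 : DifferentiableAt ℂ (fun z : ℂ => cexp ((κ * L : ℝ) * (z - T * I) ^ 2)) z := by fun_prop
      exact h5.mul h6
    · intro z h1 h2 h3 h4 h5
      rw [hfn]
      have hz2 : z.re ^ 2 ≤ 4 := by nlinarith
      have hκL : 0 < κ * L := by positivity
      rcases h5 with h5 | h5 | h5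
      · have h6 := hl z h5 (by rw [abs_le]; constructor <;> linarith)
        have h7 : κ * L * (z.re ^ 2 - (z.im - T) ^ 2) ≤ 5 * κ * L := by
          nlinarith [sq_nonneg (z.im - T)]
        calc _ ≤ Real.exp (B * L) * Real.exp (5 * κ * L) :=
              mul_le_mul h6 (Real.exp_le_exp.2 h7) (Real.exp_pos _).le (Real.exp_pos _).le
          _ = _ := by rw [← Real.exp_add]; congr 1; ring
      · have h6 := hr z h5 (by linarith)
        have h7 : κ * L * (z.re ^ 2 - (z.im - T) ^ 2) ≤ 4 * κ * L := by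
          nlinarith [sq_nonneg (z.im - T)]
        have h8 : C ≤ Real.exp (κ * L) := by
          rw [← Real.exp_log hC]
          exact Real.exp_le_exp.2 hLC
        calc _ ≤ Real.exp (κ * L) * Real.exp (4 * κ * L) :=
              mul_le_mul (h6.trans h8) (Real.exp_le_exp.2 h7) (Real.exp_pos _).le (Real.exp_pos _).le
          _ = Real.exp (5 * κ * L) := by rw [← Real.exp_add]; congr 1; ring
          _ ≤ _ := by
              apply Real.exp_le_exp.2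
              have : 0 ≤ B * L := by positivity
              nlinarith
      · have hX' : (z.im - T) ^ 2 = X ^ 2 := by
          rcases h5 with h5 | h5 <;> rw [h5] <;> ring
        have h6 := hg z (by linarith) (by linarith) (by linarith)
        have h8 := abs_le.1 (log_near' (T := T) (y := z.im) (X := X) (by linarith) (by linarith)
          (by rw [abs_le]; constructor <;> linarith))
        have h9 : A * Real.log z.im ≤ 2 * A * L := by
          rw [hL] at hL1 ⊢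
          nlinarith
        calc _ ≤ Real.exp (2 * A * L) * Real.exp (κ * L * (4 - X ^ 2)) := by
              refine mul_le_mul (h6.trans (Real.exp_le_exp.2 h9)) (Real.exp_le_exp.2 ?_)
                (Real.exp_pos _).le (Real.exp_pos _).le
              rw [hX']
              nlinarith
          _ = Real.exp ((2 * A + 4 * κ - κ * X ^ 2) * L) := by rw [← Real.exp_add]; congr 1; ring
          _ ≤ _ := by
              apply Real.exp_le_exp.2
              have h10 : (2 * A + 4 * κ - κ * X ^ 2) * L ≤ 0 :=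
                mul_nonpos_of_nonpos_of_nonneg (by linarith) (by linarith)
              have h11 : 0 ≤ (B + 5 * κ) * L := by positivity
              linarith
  rw [hfn] at hkey
  have h12 : 1 ≤ Real.exp (κ * L * (s.re ^ 2 - (s.im - T) ^ 2)) := by
    rw [hs1, sub_self]
    apply Real.one_le_exp
    have : 0 ≤ s.re ^ 2 - 0 ^ 2 := by nlinarith
    positivity
  calc ‖F s‖ ≤ ‖F s‖ * Real.exp (κ * L * (s.re ^ 2 - (s.im - T) ^ 2)) :=
        le_mul_of_one_le_right (norm_nonneg _) h12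
    _ ≤ _ := hkey
    _ = _ := by rw [hκ]; congr 1; ring

/-- a first order equation along a horizontal segment -/
theorem ode_step {H K : ℂ → ℂ} {a : ℂ} {t σ M N : ℝ} (hσ : -1 ≤ σ) (hM : 0 ≤ M)
    (hd : ∀ x : ℝ, σ ≤ x → x ≤ 2 → HasDerivAt H (K (⟨x, t⟩ : ℂ) + a * H (⟨x, t⟩ : ℂ)) (⟨x, t⟩ : ℂ))
    (hN : ‖H (⟨2, t⟩ : ℂ)‖ ≤ N) (hK : ∀ x : ℝ, σ ≤ x → x ≤ 2 → ‖K (⟨x, t⟩ : ℂ)‖ ≤ M)
    {x : ℝ} (h1 : σ ≤ x) (h2 : x ≤ 2) :
    ‖H (⟨x, t⟩ : ℂ)‖ ≤ Real.exp (3 * ‖a‖) * (N + 3 * (Real.exp (3 * ‖a‖) * M)) := by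
  obtain ⟨φ, hφ⟩ : ∃ φ : ℝ → ℂ, φ = fun x : ℝ => cexp (-(a * ((x : ℂ) - 2))) * H (⟨x, t⟩ : ℂ) := ⟨_, rfl⟩
  have hline : ∀ y : ℝ, HasDerivAt (fun y : ℝ => (⟨y, t⟩ : ℂ)) 1 y := by
    intro y
    have h3 : (fun y : ℝ => (⟨y, t⟩ : ℂ)) = fun y : ℝ => (y : ℂ) + t * I := by
      funext y
      apply Complex.ext <;> simp
    rw [h3]
    exact (ofRealCLM.hasDerivAt (x := y)).add_const _
  have hder : ∀ y : ℝ, σ ≤ y → y ≤ 2 →
      HasDerivAt φ (cexp (-(a * ((y : ℂ) - 2))) * K (⟨y, t⟩ : ℂ)) y := by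
    intro y hy1 hy2
    have e1 : HasDerivAt (fun y : ℝ => H (⟨y, t⟩ : ℂ)) ((K (⟨y, t⟩ : ℂ) + a * H (⟨y, t⟩ : ℂ)) * 1) y :=
      (hd y hy1 hy2).comp_of_eq y (hline y) rfl
    have e2 : HasDerivAt (fun y : ℝ => cexp (-(a * ((y : ℂ) - 2)))) (cexp (-(a * ((y : ℂ) - 2))) * (-(a * 1))) y := by
      have e3 : HasDerivAt (fun y : ℝ => (-(a * ((y : ℂ) - 2)))) (-(a * 1)) y := by
        have e4 : HasDerivAt (fun y : ℝ => (y : ℂ)) 1 y := ofRealCLM.hasDerivAt (x := y)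
        exact ((e4.sub_const 2).const_mul a).neg
      exact e3.cexp
    rw [hφ]
    refine (e2.mul e1).congr_deriv ?_
    ring
  have hexp : ∀ y : ℝ, σ ≤ y → y ≤ 2 → ‖cexp (-(a * ((y : ℂ) - 2)))‖ ≤ Real.exp (3 * ‖a‖) ∧
      ‖cexp (a * ((y : ℂ) - 2))‖ ≤ Real.exp (3 * ‖a‖) := by
    intro y hy1 hy2
    have h3 : ‖a * ((y : ℂ) - 2)‖ ≤ 3 * ‖a‖ := by
      rw [norm_mul, mul_comm]
      have h4 : ((y : ℂ) - 2) = ((y - 2 : ℝ) : ℂ) := by push_cast; rfl
      rw [h4, norm_real, Real.norm_eq_abs]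
      apply mul_le_mul_of_nonneg_right _ (norm_nonneg _)
      rw [abs_le]; constructor <;> linarith
    constructor
    · refine (Complex.norm_exp_le_exp_norm _).trans (Real.exp_le_exp.2 ?_)
      rw [norm_neg]; exact h3
    · exact (Complex.norm_exp_le_exp_norm _).trans (Real.exp_le_exp.2 h3)
  have hmv : ‖φ x - φ 2‖ ≤ Real.exp (3 * ‖a‖) * M * ‖x - 2‖ := by
    refine Convex.norm_image_sub_le_of_norm_hasDerivWithin_le (𝕜 := ℝ) (s := Icc σ 2) (f := φ)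
      (f' := fun y : ℝ => cexp (-(a * ((y : ℂ) - 2))) * K (⟨y, t⟩ : ℂ))
      (fun y hy => (hder y hy.1 hy.2).hasDerivWithinAt) ?_ (convex_Icc _ _)
      ⟨by linarith, le_rfl⟩ ⟨h1, h2⟩
    intro y hy
    rw [norm_mul]
    exact mul_le_mul (hexp y hy.1 hy.2).1 (hK y hy.1 hy.2) (norm_nonneg _) (Real.exp_pos _).le
  have hφ2 : φ 2 = H (⟨2, t⟩ : ℂ) := by
    rw [hφ]; simp
  have hx : H (⟨x, t⟩ : ℂ) = cexp (a * ((x : ℂ) - 2)) * φ x := by
    rw [hφ]
    simp only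
    rw [← mul_assoc, ← Complex.exp_add, add_neg_cancel, Complex.exp_zero, one_mul]
  rw [hx, norm_mul]
  refine mul_le_mul (hexp x h1 h2).2 ?_ (norm_nonneg _) (Real.exp_pos _).le
  have h5 : ‖φ x‖ ≤ ‖φ 2‖ + ‖φ x - φ 2‖ := by
    calc ‖φ x‖ = ‖φ 2 + (φ x - φ 2)‖ := by congr 1; ring
      _ ≤ _ := norm_add_le _ _
  rw [hφ2] at h5 hmv
  have h6 : ‖x - 2‖ ≤ 3 := by
    rw [Real.norm_eq_abs, abs_le]; constructor <;> linarith
  have h7 : Real.exp (3 * ‖a‖) * M * ‖x - 2‖ ≤ Real.exp (3 * ‖a‖) * M * 3 := by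
    apply mul_le_mul_of_nonneg_left h6
    positivity
  linarith

end Q240.LH
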