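import Pool.Agent.Q240.LH.Desc

/-!
# Few zeros to the left imply small values of zeta
-/

set_option autoImplicit false

namespace Q240.LH

open Complex Filter Topology Metric Set Polynomial
open Q240.SH

theorem few_zeta (P : ℂ[X]) (hP : P ≠ 0) (S : Finset ℝ) (c : ℝ → ℂ) (α ε h : ℝ) (hα0 : 0 < α)
    (hα : α ≤ 1 / 2) (hε : 0 < ε) (hh : 0 < h) : ∃ η C T0 : ℝ, 0 < η ∧ 0 < C ∧ ∀ T : ℝ, T0 ≤ T →
    (∀ Z : Finset ℂ, (∀ z ∈ Z, LD P S c z = 0 ∧ 0 ≤ z.re ∧ z.re ≤ α - η ∧ |z.im - T| ≤ C) →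
      ∑ z ∈ Z, (H370.mult (LD P S c) z : ℝ) ≤ η * Real.log T) →
    ∀ t : ℝ, |t - T| ≤ h → ‖riemannZeta (⟨1 - α, t⟩ : ℂ)‖ ≤ Real.exp (ε * Real.log T) := by
  have hF := cls_LD P hP S c
  obtain ⟨F, hFd⟩ : ∃ F : ℂ → ℂ, F = LD P S c := ⟨_, rfl⟩
  rw [← hFd] at hF
  rw [← hFd]
  obtain ⟨e, he⟩ : ∃ e : ℝ, e = min (ε / 20) (α / 2) := ⟨_, rfl⟩
  have he0 : 0 < e := by rw [he]; exact lt_min (by positivity) (by positivity)
  have he1 : 20 * e ≤ ε := by
    have : e ≤ ε / 20 := by rw [he]; exact min_le_left _ _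
    linarith
  have he2 : e ≤ α / 2 := by rw [he]; exact min_le_right _ _
  obtain ⟨η', T1, hη', hT1, hfew⟩ := few_bound hF α e e he0 (by linarith) hα he0
  obtain ⟨X, T2, hX, hT2, hpl⟩ := local_pl hF e he0
  obtain ⟨B, hB, hES⟩ := ES_bound S c
  obtain ⟨D, T3, hD, hT3, hdesc⟩ := desc P.natDegree P hP rfl
  obtain ⟨K, T4, hK, hT4, hfe⟩ := fe5
  obtain ⟨T5, hT5⟩ := ev_log ((2 + Real.log (1 + B) + Real.log D + K) / e + 4)
  obtain ⟨η, hη⟩ : ∃ η : ℝ, η = min (η' / 4) (e / 2) := ⟨_, rfl⟩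
  have hη0 : 0 < η := by rw [hη]; exact lt_min (by positivity) (by positivity)
  have hη1 : 4 * η ≤ η' := by
    have : η ≤ η' / 4 := by rw [hη]; exact min_le_left _ _
    linarith
  have hη2 : η ≤ e / 2 := by rw [hη]; exact min_le_right _ _
  have hlB : 0 ≤ Real.log (1 + B) := Real.log_nonneg (by linarith)
  have hlD : 0 ≤ Real.log D := Real.log_nonneg hD
  refine ⟨η, h + X + 1, max (max (max T1 T2) (max T3 T4)) (max T5 0) + 2 * (h + X + 1) + 100, hη0,
    by positivity, fun T hT hZ t ht => ?_⟩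
  obtain ⟨Y, hY⟩ : ∃ Y : ℝ, Y = max (max (max T1 T2) (max T3 T4)) (max T5 0) := ⟨_, rfl⟩
  rw [← hY] at hT
  have y1 : T1 ≤ Y := by
    rw [hY]; exact ((le_max_left _ _).trans (le_max_left _ _)).trans (le_max_left _ _)
  have y2 : T2 ≤ Y := by
    rw [hY]; exact ((le_max_right _ _).trans (le_max_left _ _)).trans (le_max_left _ _)
  have y3 : T3 ≤ Y := by
    rw [hY]; exact ((le_max_left _ _).trans (le_max_right _ _)).trans (le_max_left _ _)
  have y4 : T4 ≤ Y := by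
    rw [hY]; exact ((le_max_right _ _).trans (le_max_right _ _)).trans (le_max_left _ _)
  have y5 : T5 ≤ Y := by
    rw [hY]; exact (le_max_left _ _).trans (le_max_right _ _)
  have y6 : 0 ≤ Y := by
    rw [hY]; exact (le_max_right _ _).trans (le_max_right _ _)
  have ht' := abs_le.1 ht
  -- logarithms near T
  have hlog : ∀ y : ℝ, |y - T| ≤ h + X + 1 → |Real.log y - Real.log T| ≤ 1 := fun y hy =>
    log_near' (X := h + X + 1) (by positivity) (by linarith) hy
  obtain ⟨L, hL⟩ : ∃ L : ℝ, L = Real.log T := ⟨_, rfl⟩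
  obtain ⟨l, hl⟩ : ∃ l : ℝ, l = Real.log t := ⟨_, rfl⟩
  have hlL : |l - L| ≤ 1 := by rw [hl, hL]; exact hlog t (by linarith)
  have hlL' := abs_le.1 hlL
  have hle : (2 + Real.log (1 + B) + Real.log D + K) / e + 4 ≤ l := by
    rw [hl]; exact hT5 t (by linarith)
  have hK0 : 0 ≤ K := by linarith
  have hq0 : 0 ≤ (2 + Real.log (1 + B) + Real.log D + K) / e := by positivity
  have hl4 : 4 ≤ l := by linarith
  have hel : 2 + Real.log (1 + B) + Real.log D + K ≤ e * l := by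
    have h1 : (2 + Real.log (1 + B) + Real.log D + K) / e ≤ l := by linarith
    rwa [div_le_iff₀ he0, mul_comm] at h1
  obtain ⟨σ, hσ⟩ : ∃ σ : ℝ, σ = α - e := ⟨_, rfl⟩
  have hσ0 : 0 ≤ σ := by rw [hσ]; linarith
  have hσ1 : σ ≤ 1 / 2 := by rw [hσ]; linarith
  -- the bound on the line
  have hline : ∀ s : ℂ, s.re = σ → |s.im - t| ≤ X → ‖F s‖ ≤ Real.exp ((1 / 2 - σ + 2 * e) * l) := by
    intro s hs1 hs2
    have hs2' := abs_le.1 hs2
    have hsT : |s.im - T| ≤ h + X := by rw [abs_le]; constructor <;> linarith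
    have hcnt : ∀ Z : Finset ℂ, (∀ z ∈ Z, F z = 0 ∧ 0 ≤ z.re ∧ z.re ≤ α - e / 2 ∧ |z.im - s.im| ≤ 1) →
        ∑ z ∈ Z, (H370.mult F z : ℝ) ≤ η' * Real.log s.im := by
      intro Z hZ1
      have h1 := hZ Z fun z hz => by
        obtain ⟨a1, a2, a3, a4⟩ := hZ1 z hz
        have a4' := abs_le.1 a4
        have hsT' := abs_le.1 hsT
        exact ⟨a1, a2, by linarith, by rw [abs_le]; constructor <;> linarith⟩
      refine h1.trans ?_
      have h2 := abs_le.1 (hlog s.im (by linarith))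
      rw [← hL] at h2 ⊢
      have h3 : η * L ≤ η * (4 * Real.log s.im) := mul_le_mul_of_nonneg_left (by linarith) hη0.le
      have h4 : 4 * η * Real.log s.im ≤ η' * Real.log s.im :=
        mul_le_mul_of_nonneg_right hη1 (by linarith)
      linarith
    have h1 := hfew s.im (by have := abs_le.1 hsT; linarith) hcnt s rfl (by rw [hs1]; exact hσ0)
      (by rw [hs1, hσ])
    refine h1.trans (Real.exp_le_exp.2 ?_)
    rw [hs1]
    have h2 := abs_le.1 (log_near' (T := t) (y := s.im) (X := X) (by linarith) (by linarith) hs2)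
    rw [← hl] at h2
    have h3 : Real.log s.im * (1 / 2 - σ + e) ≤ (l + 1) * (1 / 2 - σ + e) :=
      mul_le_mul_of_nonneg_right (by linarith) (by linarith)
    nlinarith
  -- to the right
  have hright : ∀ x : ℝ, σ ≤ x → x ≤ 2 → ‖F (⟨x, t⟩ : ℂ)‖ ≤ Real.exp ((1 / 2 - σ + 3 * e) * l) := by
    intro x h1 h2
    have h3 := hpl t (by linarith) σ (1 / 2 - σ + 2 * e) hσ0 (by linarith) (by linarith)
      (by rw [← hl]; exact hline) (⟨x, t⟩ : ℂ) rfl h1 h2
    rw [← hl] at h3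
    refine h3.trans (le_of_eq ?_)
    congr 1; ring
  have hexp1 : 1 ≤ Real.exp ((1 / 2 - σ + 3 * e) * l) := Real.one_le_exp (by
    have : 0 ≤ 1 / 2 - σ + 3 * e := by linarith
    positivity)
  have hLP : ∀ x : ℝ, σ ≤ x → x ≤ 2 →
      ‖LP P (⟨x, t⟩ : ℂ)‖ ≤ (1 + B) * Real.exp ((1 / 2 - σ + 3 * e) * l) := by
    intro x h1 h2
    have h3 : LP P (⟨x, t⟩ : ℂ) = F (⟨x, t⟩ : ℂ) - ES S c (⟨x, t⟩ : ℂ) := by
      rw [hFd, LD_eq]; ring
    have h4 := hES (⟨x, t⟩ : ℂ) (by simp only; rw [abs_le]; constructor <;> linarith)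
    rw [h3]
    refine (norm_sub_le _ _).trans ?_
    have h5 := hright x h1 h2
    nlinarith
  have hz := hdesc t (by linarith) σ (by linarith) ((1 + B) * Real.exp ((1 / 2 - σ + 3 * e) * l))
    (by nlinarith) hLP α (by rw [hσ]; linarith) (by linarith)
  -- functional equation
  have hre : (1 - (starRingEnd ℂ) (⟨1 - α, t⟩ : ℂ)) = (⟨α, t⟩ : ℂ) := by
    apply Complex.ext <;> simp
  obtain ⟨f1, -, -⟩ := hfe (⟨1 - α, t⟩ : ℂ) (by simp only; linarith)
    (by simp only; rw [abs_le]; constructor <;> linarith)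
  rw [hre] at f1
  simp only at f1
  have ht0 : 0 < t := by linarith
  rw [Real.rpow_def_of_pos ht0, ← hl] at f1
  refine f1.trans ?_
  calc Real.exp K * Real.exp (l * (1 / 2 - (1 - α))) * ‖riemannZeta (⟨α, t⟩ : ℂ)‖
      ≤ Real.exp K * Real.exp (l * (1 / 2 - (1 - α))) *
        (D * ((1 + B) * Real.exp ((1 / 2 - σ + 3 * e) * l))) := by gcongr
    _ = Real.exp (K + l * (1 / 2 - (1 - α)) + (Real.log D + (Real.log (1 + B) + (1 / 2 - σ + 3 * e) * l))) := by
        rw [Real.exp_add, Real.exp_add, Real.exp_add, Real.exp_add, Real.exp_log (by linarith),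
          Real.exp_log (by linarith)]
    _ ≤ _ := by
        apply Real.exp_le_exp.2
        rw [← hL]
        have h1 : K + l * (1 / 2 - (1 - α)) + (Real.log D + (Real.log (1 + B) + (1 / 2 - σ + 3 * e) * l)) ≤
            5 * e * l := by
          rw [hσ]
          nlinarith
        have h2 : 5 * e * l ≤ 5 * e * (L + 1) := mul_le_mul_of_nonneg_left (by linarith) (by positivity)
        have h3 : 20 * e * L ≤ ε * L := mul_le_mul_of_nonneg_right he1 (by linarith)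
        nlinarith

end Q240.LH
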