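import Pool.Agent.Q240.LH.Small

/-!
# Small values of zeta imply the expected upper bound to the left
-/

set_option autoImplicit false

namespace Q240.LH

open Complex Filter Topology Metric Set Polynomial
open Q240.SH

theorem cls_zeta : Cls riemannZeta := by
  have h1 := cls_LP (C 1 : ℂ[X]) (by simp)
  have h2 : LP (C 1) = riemannZeta := by
    funext s
    rw [← monomial_zero_left, LP_monomial, iteratedDeriv_zero, one_mul]
  rwa [h2] at h1

theorem zeta_left (α η : ℝ) (hα0 : 0 < α) (hα : α ≤ 1 / 2) (hη : 0 < η) : ∃ X T0 : ℝ, 1 ≤ X ∧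
    2 * X + 100 ≤ T0 ∧ ∀ T : ℝ, T0 ≤ T →
    (∀ t : ℝ, |t - T| ≤ X → ‖riemannZeta (⟨1 - α, t⟩ : ℂ)‖ ≤ Real.exp (η * Real.log T)) →
    ∀ s : ℂ, s.im = T → -1 ≤ s.re → s.re ≤ α →
      ‖riemannZeta s‖ ≤ Real.exp (Real.log T * (1 / 2 - s.re + 3 * η)) := by
  obtain ⟨X, T1, hX, hT1, hpl⟩ := local_pl cls_zeta η hη
  obtain ⟨K, T2, hK, hT2, hfe⟩ := fe5
  obtain ⟨T3, hT3⟩ := ev_log (K / η)
  refine ⟨X, max T1 (max T2 T3), hX, hT1.trans (le_max_left _ _), fun T hT hb s hs1 hs2 hs3 => ?_⟩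
  have b1 : T1 ≤ T := (le_max_left _ _).trans hT
  have b2 : T2 ≤ T := ((le_max_left _ _).trans (le_max_right _ _)).trans hT
  have b3 : T3 ≤ T := ((le_max_right _ _).trans (le_max_right _ _)).trans hT
  have hT0 : 0 < T := by linarith
  have h1 := hpl T b1 (1 - α) η (by linarith) (by linarith) hη.le (fun z hz1 hz2 => by
    have h2 : z = ⟨1 - α, z.im⟩ := by
      apply Complex.ext
      · exact hz1
      · rfl
    rw [h2]
    exact hb z.im hz2) (1 - (starRingEnd ℂ) s) (by simp [hs1]) (by simp; linarith) (by simp; linarith)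
  obtain ⟨f1, -, -⟩ := hfe s (by rw [hs1]; exact b2) (by rw [abs_le]; constructor <;> linarith)
  rw [hs1, Real.rpow_def_of_pos hT0] at f1
  have h3 := hT3 T b3
  rw [div_le_iff₀ hη] at h3
  calc ‖riemannZeta s‖ ≤ Real.exp K * Real.exp (Real.log T * (1 / 2 - s.re)) *
        ‖riemannZeta (1 - (starRingEnd ℂ) s)‖ := f1
    _ ≤ Real.exp K * Real.exp (Real.log T * (1 / 2 - s.re)) * Real.exp ((η + η) * Real.log T) := by gcongr
    _ = Real.exp (K + Real.log T * (1 / 2 - s.re) + (η + η) * Real.log T) := by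
        rw [Real.exp_add, Real.exp_add]
    _ ≤ _ := by
        apply Real.exp_le_exp.2
        linarith

theorem up (P : ℂ[X]) (S : Finset ℝ) (c : ℝ → ℂ) (α e : ℝ) (hα0 : 0 < α)
    (hα : α ≤ 1 / 2) (he : 0 < e) (he1 : e ≤ 1) : ∃ η X T0 : ℝ, 0 < η ∧ 1 ≤ X ∧ 2 * X + 100 ≤ T0 ∧
    ∀ T : ℝ, T0 ≤ T →
    (∀ t : ℝ, |t - T| ≤ X → ‖riemannZeta (⟨1 - α, t⟩ : ℂ)‖ ≤ Real.exp (η * Real.log T)) →
    ∀ s : ℂ, s.im = T → 0 ≤ s.re → s.re ≤ α - e →
      ‖LD P S c s‖ ≤ Real.exp (Real.log T * (1 / 2 - s.re + 2 * e)) := by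
  obtain ⟨η, hη⟩ : ∃ η : ℝ, η = e / 12 := ⟨_, rfl⟩
  have hη0 : 0 < η := by rw [hη]; positivity
  obtain ⟨X, T1, hX, hT1, hzl⟩ := zeta_left α (2 * η) hα0 hα (by positivity)
  obtain ⟨B, hB, hES⟩ := ES_bound S c
  obtain ⟨W, hW⟩ : ∃ W : ℝ, W = ∑ i ∈ Finset.range (P.natDegree + 1), ‖P.coeff i‖ * (i.factorial / e ^ i) :=
    ⟨_, rfl⟩
  have hW0 : 0 ≤ W := by rw [hW]; positivity
  have hlog0 : 0 ≤ Real.log (1 + W + B) := Real.log_nonneg (by linarith)
  obtain ⟨T2, hT2⟩ := ev_log ((Real.log (1 + W + B) + 4) * 2 / e + 1)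
  refine ⟨η, X + 1, max (T1 + 1) (max T2 (2 * X + 102)), hη0, by linarith, ?_, fun T hT hb s hs1 hs2 hs3 => ?_⟩
  · have := (le_max_right T2 (2 * X + 102)).trans (le_max_right (T1 + 1) _)
    linarith
  have b1 : T1 + 1 ≤ T := (le_max_left _ _).trans hT
  have b2 : T2 ≤ T := ((le_max_left _ _).trans (le_max_right _ _)).trans hT
  have hT0 : 0 < T := by linarith
  obtain ⟨L, hL⟩ : ∃ L : ℝ, L = Real.log T := ⟨_, rfl⟩
  have hLe : (Real.log (1 + W + B) + 4) * 2 / e + 1 ≤ L := by rw [hL]; exact hT2 T b2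
  have hq0 : 0 ≤ (Real.log (1 + W + B) + 4) * 2 / e := by positivity
  have hL1 : 1 ≤ L := by linarith
  have hLe' : Real.log (1 + W + B) + 4 ≤ e / 2 * L := by
    have h1 : (Real.log (1 + W + B) + 4) * 2 / e ≤ L := by linarith
    rw [div_le_iff₀ he] at h1
    linarith
  rw [← hL]
  obtain ⟨U, hU⟩ : ∃ U : ℝ, U = Real.exp (L * (1 / 2 - s.re + e + 6 * η) + 3) := ⟨_, rfl⟩
  have hU1 : 1 ≤ U := by
    rw [hU]
    apply Real.one_le_exp
    have : 0 ≤ 1 / 2 - s.re + e + 6 * η := by linarith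
    positivity
  have hball : ∀ w ∈ closedBall s e, DifferentiableAt ℂ riemannZeta w ∧ ‖riemannZeta w‖ ≤ U := by
    intro w hw
    rw [mem_closedBall, dist_eq_norm] at hw
    have h3 := abs_le.1 ((abs_re_le_norm (w - s)).trans hw)
    have h4 := (abs_im_le_norm (w - s)).trans hw
    rw [sub_re] at h3
    rw [sub_im, hs1] at h4
    have h4' := abs_le.1 h4
    have hwlog := abs_le.1 (log_near' (T := T) (y := w.im) (X := 1) zero_le_one (by linarith) (by linarith))
    rw [← hL] at hwlog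
    refine ⟨differentiableAt_riemannZeta (ne_one_of_im (by linarith)), ?_⟩
    have h5 := hzl w.im (by linarith) (fun t ht => by
      have ht' := abs_le.1 ht
      refine (hb t (by rw [abs_le]; constructor <;> linarith)).trans (Real.exp_le_exp.2 ?_)
      rw [← hL]
      have : L ≤ 2 * Real.log w.im := by
        have h6 : 8 ≤ L := by
          have : (4 : ℝ) * 2 / e ≤ (Real.log (1 + W + B) + 4) * 2 / e := by gcongr; linarith
          have h7 : (8 : ℝ) ≤ 4 * 2 / e := by rw [le_div_iff₀ he]; linarith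
          linarith
        linarith
      nlinarith) w rfl (by linarith) (by linarith)
    refine h5.trans ?_
    rw [hU]
    apply Real.exp_le_exp.2
    have h6 : 0 ≤ 1 / 2 - w.re + 3 * (2 * η) := by linarith
    have h7 : Real.log w.im * (1 / 2 - w.re + 3 * (2 * η)) ≤ (L + 1) * (1 / 2 - w.re + 3 * (2 * η)) :=
      mul_le_mul_of_nonneg_right (by linarith) h6
    have h8 : (L + 1) * (1 / 2 - w.re + 3 * (2 * η)) ≤ (L + 1) * (1 / 2 - s.re + e + 6 * η) :=
      mul_le_mul_of_nonneg_left (by linarith) (by linarith)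
    have h9 : 1 / 2 - s.re + e + 6 * η ≤ 3 := by linarith
    nlinarith
  have hD : DiffContOnCl ℂ riemannZeta (ball s e) := by
    apply DifferentiableOn.diffContOnCl
    intro w hw
    exact (hball w (closure_ball_subset_closedBall hw)).1.differentiableWithinAt
  have hit : ∀ k : ℕ, ‖iteratedDeriv k riemannZeta s‖ ≤ k.factorial / e ^ k * U := by
    intro k
    have h1 := norm_iteratedDeriv_le_of_forall_mem_sphere_norm_le k he hD
      (fun z hz => (hball z (sphere_subset_closedBall hz)).2)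
    refine h1.trans (le_of_eq ?_)
    ring
  have h1 : ‖∑ i ∈ Finset.range (P.natDegree + 1), P.coeff i * iteratedDeriv i riemannZeta s‖ ≤ W * U := by
    rw [hW, Finset.sum_mul]
    refine norm_sum_le_of_le _ fun i _ => ?_
    rw [norm_mul, mul_assoc]
    exact mul_le_mul_of_nonneg_left (hit i) (norm_nonneg _)
  have h2 : ‖∑ l ∈ S, c l * cexp (-(l * s))‖ ≤ B := hES s (by rw [abs_le]; constructor <;> linarith)
  calc ‖LD P S c s‖ ≤ W * U + B := (norm_add_le _ _).trans (add_le_add h1 h2)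
    _ ≤ (1 + W + B) * U := by nlinarith
    _ = Real.exp (Real.log (1 + W + B) + (L * (1 / 2 - s.re + e + 6 * η) + 3)) := by
        rw [Real.exp_add, Real.exp_log (by linarith), hU]
    _ ≤ _ := by
        apply Real.exp_le_exp.2
        rw [hη]
        nlinarith

end Q240.LH
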